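import Pool.Agent.MP_c1891a_nt.G43.Spec
import Pool.Agent.MP_c1891a_nt.H40.One
import Pool.Agent.MP_c1891a_nt.H41.Field
import Pool.Agent.MP_c1891a_nt.H53.NormP
import Pool.Agent.MP_c1891a_nt.H85.Arith
import Pool.Agent.MP_c1891a_nt.H14.TL
import Pool.Agent.MP_c1891a_nt.H44.Liou
import Pool.Agent.MP_c1891a_nt.H41.ZU

/-
Row OneN: no very small value on a subgroup of small degree, any number of monomials.
-/

namespace Pool.Agent.MP_c1891a_nt.G43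

open Finset Polynomial Module H43

/-- the sum as a polynomial -/
noncomputable def oneN_F {ι L : Type} [Field L] (I : Finset ι) (c k a : ι → ℤ) (A : ℕ) (ω : L) :
    L[X] := ∑ i ∈ I, C ((c i : L) * ω ^ k i) * X ^ (A + a i).toNat

variable {ι : Type} (I : Finset ι) (c k a : ι → ℤ)

lemma oneN_eval {A : ℕ} (hA : ∀ i ∈ I, (a i).natAbs ≤ A) (ω x : ℂ) (hx : x ≠ 0) :
    (oneN_F I c k a A ω).eval x = x ^ A * fn I c k a ω x := by
  rw [oneN_F, fn, eval_finsetSum, mul_sum]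
  refine sum_congr rfl fun i hi => ?_
  have h : (((A + a i).toNat : ℕ) : ℤ) = A + a i := by
    have := hA i hi
    omega
  rw [eval_mul, eval_C, eval_pow, eval_X, ← zpow_natCast, h, zpow_add₀ hx, zpow_natCast]
  ring

lemma oneN_map {L : Type} [Field L] (σ : L →+* ℂ) (A : ℕ) (ω : L) :
    (oneN_F I c k a A ω).map σ = oneN_F I c k a A (σ ω) := by
  simp [oneN_F, Polynomial.map_sum]

lemma oneN_deg {A : ℕ} (hA : ∀ i ∈ I, (a i).natAbs ≤ A) (ω : ℂ) :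
    (oneN_F I c k a A ω).natDegree ≤ 2 * A :=
  natDegree_sum_le_of_forall_le _ _ fun i hi =>
    (natDegree_C_mul_X_pow_le _ _).trans (by
      have := hA i hi
      omega)

lemma oneN_int {L : Type} [Field L] (A : ℕ) {η : L} {g : ℕ} (hg : 0 < g) (h : η ^ g = 1) :
    IntC (oneN_F I c k a A η) := by
  have key : ∀ m : ℤ, IsIntegral ℤ (η ^ m) := fun m => by
    refine IsIntegral.of_pow hg ?_
    rw [← zpow_natCast, ← zpow_mul, mul_comm, zpow_mul, zpow_natCast, h, one_zpow]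
    exact isIntegral_one
  intro n
  rw [oneN_F, finsetSum_coeff]
  refine IsIntegral.sum _ fun i _ => ?_
  rw [coeff_C_mul_X_pow]
  split_ifs
  · exact (isIntegral_algebraMap (R := ℤ) (x := c i)).mul (key _)
  · exact isIntegral_zero

lemma oneN_mul_bd (A : ℕ) {η : ℂ} (h₁ : ‖η‖ = 1) (G : ℂ[X]) {B : ℝ} (hB : 0 ≤ B)
    (h : ∀ n, ‖G.coeff n‖ ≤ B) (n : ℕ) :
    ‖(oneN_F I c k a A η * G).coeff n‖ ≤ (∑ i ∈ I, (c i).natAbs : ℕ) * B := by
  rw [oneN_F, sum_mul, finsetSum_coeff, Nat.cast_sum, sum_mul]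
  refine (norm_sum_le _ _).trans (sum_le_sum fun i _ => ?_)
  rw [mul_assoc, coeff_C_mul, norm_mul, norm_mul, norm_zpow, h₁, one_zpow, mul_one,
    Complex.norm_intCast, Nat.cast_natAbs, Int.cast_abs, coeff_X_pow_mul']
  refine mul_le_mul_of_nonneg_left ?_ (abs_nonneg _)
  split_ifs
  · exact h _
  · simpa using hB

lemma oneN_prod_bd {J : Type} (A : ℕ) (s : Finset J) (η : J → ℂ) (h₁ : ∀ j, ‖η j‖ = 1) (n : ℕ) :
    ‖(∏ j ∈ s, oneN_F I c k a A (η j)).coeff n‖ ≤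
      ((∑ i ∈ I, (c i).natAbs : ℕ) : ℝ) ^ s.card := by
  classical
  induction s using Finset.induction_on generalizing n with
  | empty =>
    rw [prod_empty, coeff_one, card_empty, pow_zero]
    split_ifs <;> simp
  | insert j s hj ih =>
    rw [prod_insert hj, card_insert_of_notMem hj, pow_succ']
    exact oneN_mul_bd I c k a A (h₁ j) _ (by positivity) ih n

/-- the norm polynomial -/
lemma oneN_norm {A H g : ℕ} {ω X₀ α : ℂ} (hA : ∀ i ∈ I, (a i).natAbs ≤ A)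
    (hH : H = ∑ i ∈ I, (c i).natAbs) (hg : 0 < g) (hω : IsPrimitiveRoot ω g) (hX : X₀ ≠ 0)
    (hα : α ≠ 0) (h0 : fn I c k a ω X₀ ≠ 0) (h1 : fn I c k a ω α = 0) :
    ∃ T : ℤ[X], T ≠ 0 ∧ T.natDegree ≤ g * (2 * A) ∧ (∀ n, |T.coeff n| ≤ 2 ^ (H * g)) ∧
      aeval α T = 0 := by
  obtain ⟨L, _, _, e, ω', hι, hr, -⟩ := sField.1 g ω hg hω
  have hω' : ω' ^ g = 1 := e.injective (by rw [map_pow, hι, hω.pow_eq_one, map_one])
  obtain ⟨T, hT⟩ := (sNormP L).2.1 _ (oneN_int I c k a A hg hω')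
  have hc : (univ : Finset (L →+* ℂ)).card ≤ g := by
    rw [card_univ, NumberField.Embeddings.card, hr]
    exact Nat.totient_le g
  have e1 : (oneN_F I c k a A ω').map e = oneN_F I c k a A ω := by rw [oneN_map, hι]
  have hf : oneN_F I c k a A ω' ≠ 0 := by
    intro h
    have h4 := oneN_eval I c k a hA ω X₀ hX
    rw [← e1, h, Polynomial.map_zero, eval_zero] at h4
    exact mul_ne_zero (pow_ne_zero _ hX) h0 h4.symm
  refine ⟨T, fun h => ?_, ?_, fun n => ?_, ?_⟩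
  · rw [h, cx, Polynomial.map_zero] at hT
    obtain ⟨σ, -, hσ⟩ := prod_eq_zero_iff.1 hT.symm
    exact hf ((Polynomial.map_eq_zero_iff σ.injective).1 hσ)
  · rw [← natDegree_map_eq_of_injective (Int.castRingHom ℂ).injective_int]
    change (cx T).natDegree ≤ _
    rw [hT]
    refine (natDegree_prod_le _ _).trans ((sum_le_card_nsmul _ _ _ fun σ _ => ?_).trans
      (Nat.mul_le_mul_right _ hc))
    rw [oneN_map]
    exact oneN_deg I c k a hA _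
  · have hn : ∀ σ : L →+* ℂ, ‖σ ω'‖ = 1 := fun σ => Complex.norm_eq_one_of_pow_eq_one
      (show σ ω' ^ g = 1 by rw [← map_pow, hω', map_one]) hg.ne'
    have h4 := oneN_prod_bd I c k a A univ (fun σ : L →+* ℂ => σ ω') hn n
    simp only [← oneN_map] at h4
    rw [← hT, cx, coeff_map, eq_intCast, Complex.norm_intCast, ← hH] at h4
    have h5 : (H : ℝ) ^ (univ : Finset (L →+* ℂ)).card ≤ 2 ^ (H * g) := by
      have h6 : (H : ℝ) ≤ 2 ^ H := by exact_mod_cast (Nat.lt_two_pow_self (n := H)).le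
      rw [pow_mul]
      exact (pow_le_pow_left₀ (by positivity) h6 _).trans
        (pow_le_pow_right₀ (one_le_pow₀ (by norm_num)) hc)
    exact_mod_cast h4.trans h5
  · have h4 : aeval α T = (cx T).eval α := by
      rw [cx, eval_map, aeval_def]
      rfl
    rw [h4, hT, eval_prod]
    refine prod_eq_zero (mem_univ e) ?_
    rw [e1, oneN_eval I c k a hA _ _ hα, h1, mul_zero]

theorem sOneN (h : SNearN) : SOneN := by
  intro ι I c C₁
  obtain ⟨C, h1⟩ := h ι I c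
  obtain ⟨Y₀, h4⟩ := H14.stl H44.liou H41ZU.szl H41ZU.sup
  obtain ⟨N₀, h5⟩ := sArith (1 / 2) (by norm_num)
  obtain ⟨H, hH⟩ : ∃ H : ℕ, H = ∑ i ∈ I, (c i).natAbs := ⟨_, rfl⟩
  obtain ⟨D, hD⟩ : ∃ D : ℕ, D = 2 * C₁ + H * C₁ + 15 + Y₀ := ⟨_, rfl⟩
  obtain ⟨K, hK⟩ : ∃ K : ℕ, K = C + C₁ + (D + 1) ^ 14 + 2 * (N₀ + (D + 1) ^ 2) := ⟨_, rfl⟩
  refine ⟨(K + 1) ^ 300, fun M hM k a g ω X₀ hg hω hX hs hs' h0 => ?_⟩
  have hM0 : 0 < M := lt_of_lt_of_le (by positivity) hM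
  have hMr : (0 : ℝ) ≤ M := Nat.cast_nonneg M
  obtain ⟨u, hu⟩ : ∃ u : ℝ, u = (M : ℝ) ^ (1 / 300 : ℝ) := ⟨_, rfl⟩
  have hu0 : 0 ≤ u := by rw [hu]; positivity
  have hpow : ∀ (n : ℕ) (r : ℝ), r = 1 / 300 * n → (M : ℝ) ^ r = u ^ n := fun n r hr => by
    rw [hu, ← Real.rpow_natCast, ← Real.rpow_mul hMr, hr]
  have hMu : (M : ℝ) = u ^ 300 := by rw [← hpow 300 1 (by norm_num), Real.rpow_one]
  have huK : (K : ℝ) + 1 ≤ u := by
    refine le_of_pow_le_pow_left₀ (n := 300) (by norm_num) hu0 ?_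
    rw [← hMu]
    exact_mod_cast hM
  rw [hpow 20 _ (by norm_num)] at hs hs'
  rw [hpow 291 _ (by norm_num)]
  have hKr : (K : ℝ) = C + C₁ + (D + 1) ^ 14 + 2 * (N₀ + (D + 1) ^ 2) := by exact_mod_cast hK
  have hDr : (D : ℝ) = 2 * C₁ + H * C₁ + 15 + Y₀ := by exact_mod_cast hD
  have pC : (0 : ℝ) ≤ C := Nat.cast_nonneg _
  have pD : (0 : ℝ) ≤ ((D : ℝ) + 1) ^ 14 := by positivity
  have pN : (0 : ℝ) ≤ N₀ + ((D : ℝ) + 1) ^ 2 := by positivity
  have pR : (0 : ℝ) ≤ C₁ := Nat.cast_nonneg _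
  have pH : (0 : ℝ) ≤ H := Nat.cast_nonneg _
  have pY : (0 : ℝ) ≤ Y₀ := Nat.cast_nonneg _
  have hu1 : 1 ≤ u := by linarith
  have hstep : ∀ (c : ℝ) (a b : ℕ), c < u → a < b → c * u ^ a < u ^ b := fun c a b hc hab =>
    calc c * u ^ a < u * u ^ a := by gcongr
      _ = u ^ (a + 1) := by ring
      _ ≤ u ^ b := pow_le_pow_right₀ hu1 hab
  by_contra hcon
  rw [not_lt] at hcon
  have hX1 : ‖X₀‖ = 1 := Complex.norm_eq_one_of_pow_eq_one hX hM0.ne'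
  have hX0 : X₀ ≠ 0 := fun h => by simp [h] at hX1
  have hC1 := (hstep C₁ 20 285 (by linarith) (by norm_num)).le
  obtain ⟨α, hα, hd, hz⟩ := h1 k a g ω X₀ (u ^ 285) hg hω hX1 (hs.trans hC1)
    (fun i hi => (hs' i hi).trans hC1) h0
    (hcon.trans (Real.exp_le_exp.2 (neg_le_neg (hstep C 285 291 (by linarith) (by norm_num)).le)))
  have hI : I.Nonempty := by
    rw [nonempty_iff_ne_empty]
    rintro rfl
    exact h0 (by simp [fn])
  obtain ⟨i₀, hi₀, hA⟩ := exists_max_image I (fun i => (a i).natAbs) hI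
  obtain ⟨T, hT0, hT1, hT2, hT3⟩ := oneN_norm I c k a hA hH hg hω hX0 hα h0 hz
  have ht1 : 1 ≤ u ^ 20 := one_le_pow₀ hu1
  obtain ⟨Y, hY1, hY2⟩ : ∃ Y : ℕ, D * u ^ 20 ≤ Y ∧ (Y : ℝ) ≤ (D + 1) * u ^ 20 :=
    ⟨⌈D * u ^ 20⌉₊, Nat.le_ceil _, by
      have := (Nat.ceil_lt_add_one (a := D * u ^ 20) (by positivity)).le
      linarith⟩
  have hg0 : (0 : ℝ) ≤ g := Nat.cast_nonneg _
  have q1 : (0 : ℝ) ≤ C₁ * u ^ 20 := by positivity
  have q2 : (0 : ℝ) ≤ H * (C₁ * u ^ 20) := by positivity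
  have q3 : (Y₀ : ℝ) ≤ Y₀ * u ^ 20 := le_mul_of_one_le_right pY ht1
  have hY3 : 2 * (C₁ * u ^ 20) + H * (C₁ * u ^ 20) + 15 * u ^ 20 + Y₀ * u ^ 20 ≤ Y := by
    rw [hDr] at hY1
    linarith
  have hdeg : T.natDegree ≤ Y := by
    refine hT1.trans ?_
    have h7 := hs' i₀ hi₀
    have h8 : ((g * (2 * (a i₀).natAbs) : ℕ) : ℝ) ≤ Y := by
      push_cast [Nat.cast_natAbs] at h7 ⊢
      linarith
    exact_mod_cast h8
  have hco : ∀ n, |T.coeff n| ≤ 2 ^ Y := fun n => by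
    refine (hT2 n).trans (pow_le_pow_right₀ (by norm_num) ?_)
    have h7 : (H : ℝ) * g ≤ H * (C₁ * u ^ 20) := mul_le_mul_of_nonneg_left hs pH
    have h8 : ((H * g : ℕ) : ℝ) ≤ Y := by
      push_cast
      linarith
    exact_mod_cast h8
  have hY0 : Y₀ ≤ Y := by
    have h8 : (Y₀ : ℝ) ≤ Y := by linarith
    exact_mod_cast h8
  have hMY : M ≤ 2 ^ Y := by
    have h6 : u ^ 20 ≤ (2 : ℝ) ^ ⌊u ^ 20⌋₊ := by
      have h7 := (Nat.lt_floor_add_one (u ^ 20)).le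
      have h8 : ⌊u ^ 20⌋₊ + 1 ≤ 2 ^ ⌊u ^ 20⌋₊ := Nat.lt_two_pow_self
      have h9 : (⌊u ^ 20⌋₊ : ℝ) + 1 ≤ 2 ^ ⌊u ^ 20⌋₊ := by exact_mod_cast h8
      linarith
    have h7 : ⌊u ^ 20⌋₊ * 15 ≤ Y := by
      have h8 := Nat.floor_le (show 0 ≤ u ^ 20 by positivity)
      have h9 : ((⌊u ^ 20⌋₊ * 15 : ℕ) : ℝ) ≤ Y := by
        push_cast
        linarith
      exact_mod_cast h9
    have h8 : (M : ℝ) ≤ 2 ^ Y :=
      calc (M : ℝ) = (u ^ 20) ^ 15 := by rw [hMu]; ring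
        _ ≤ (2 ^ ⌊u ^ 20⌋₊) ^ 15 := by gcongr
        _ = 2 ^ (⌊u ^ 20⌋₊ * 15) := (pow_mul _ _ _).symm
        _ ≤ _ := pow_le_pow_right₀ (by norm_num) h7
    exact_mod_cast h8
  by_cases htor : ∀ n : ℕ, 0 < n → α ^ n ≠ 1
  · have h6 := Real.exp_le_exp.1 ((h4 Y hY0 T α X₀ M hT0 hdeg hco hT3 htor hM0 hMY hX).trans hd)
    have h7 : (Y : ℝ) ^ 14 ≤ ((D + 1) * u ^ 20) ^ 14 := by gcongr
    have h8 := hstep ((D + 1) ^ 14) 280 285 (by linarith) (by norm_num)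
    have h9 : (((D : ℝ) + 1) * u ^ 20) ^ 14 = (D + 1) ^ 14 * u ^ 280 := by
      rw [mul_pow, ← pow_mul u]
    rw [h9] at h7
    generalize ((D : ℝ) + 1) ^ 14 * u ^ 280 = t at h7 h8
    linarith
  · push Not at htor
    obtain ⟨n, hn, hαn⟩ := htor
    have hfin : IsOfFinOrder α := isOfFinOrder_iff_pow_eq_one.2 ⟨n, hn, hαn⟩
    have hn0 : 0 < orderOf α := hfin.orderOf_pos
    have hprim : IsPrimitiveRoot α (orderOf α) := IsPrimitiveRoot.orderOf α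
    have hdv : cyclotomic (orderOf α) ℤ ∣ T := by
      rw [cyclotomic_eq_minpoly hprim hn0]
      exact minpoly.isIntegrallyClosed_dvd (hprim.isIntegral hn0) hT3
    have hφ : (orderOf α).totient ≤ Y := by
      rw [← natDegree_cyclotomic (orderOf α) ℤ]
      exact (natDegree_le_of_dvd hdv hT0).trans hdeg
    have hord : (orderOf α : ℝ) ≤ N₀ + (Y : ℝ) ^ 2 := by
      rcases le_total N₀ (orderOf α) with h | h
      · have h6 := (h5 _ h).1
        have h7 : ((orderOf α).totient : ℝ) ≤ Y := by exact_mod_cast hφ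
        rw [show (1 - 1 / 2 : ℝ) = 1 / 2 by norm_num, ← Real.sqrt_eq_rpow] at h6
        have h8 := Real.sqrt_le_iff.1 (h6.trans h7)
        have h9 : (0 : ℝ) ≤ N₀ := Nat.cast_nonneg _
        linarith [h8.2]
      · have h6 : (orderOf α : ℝ) ≤ N₀ := by exact_mod_cast h
        have h7 : (0 : ℝ) ≤ (Y : ℝ) ^ 2 := by positivity
        linarith
    have hne : α / X₀ ≠ 1 := fun h => h0 (by rwa [(div_eq_one_iff_eq hX0).1 h] at hz)
    have h6 := one_dist (ζ := α / X₀) (Nat.mul_pos hn0 hM0) (by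
      rw [div_pow, pow_mul, pow_orderOf_eq_one, one_pow, mul_comm, pow_mul, hX, one_pow,
        div_one]) hne
    rw [div_sub_one hX0, norm_div, hX1, div_one, Nat.cast_mul, hMu] at h6
    have h7 : (orderOf α : ℝ) ≤ (N₀ + (D + 1) ^ 2) * u ^ 40 := by
      have h8 : (Y : ℝ) ^ 2 ≤ ((D + 1) * u ^ 20) ^ 2 := by gcongr
      have h9 : (N₀ : ℝ) ≤ N₀ * u ^ 40 :=
        le_mul_of_one_le_right (Nat.cast_nonneg _) (one_le_pow₀ hu1)
      have h10 : (((D : ℝ) + 1) * u ^ 20) ^ 2 = (D + 1) ^ 2 * u ^ 40 := by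
        rw [mul_pow, ← pow_mul u]
      rw [h10] at h8
      rw [add_mul]
      linarith
    have h8 : (1 : ℝ) ≤ (N₀ + (D + 1) ^ 2) * u ^ 40 * u ^ 300 * Real.exp (-u ^ 285) :=
      h6.trans (by gcongr)
    rw [Real.exp_neg, ← div_eq_mul_inv, le_div_iff₀ (Real.exp_pos _), one_mul] at h8
    have h9 := Real.pow_div_factorial_le_exp (u ^ 285) (by positivity) 2
    have h10 := hstep (2 * (N₀ + (D + 1) ^ 2)) 340 570 (by linarith) (by norm_num)
    rw [← pow_mul, Nat.factorial_two] at h9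
    push_cast at h9
    have h11 : ((N₀ : ℝ) + (D + 1) ^ 2) * u ^ 40 * u ^ 300 = (N₀ + (D + 1) ^ 2) * u ^ 340 := by
      ring
    linarith

end Pool.Agent.MP_c1891a_nt.G43
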